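import Pool.Agent.W_2cf66e_h65.Final

/-!
# MP_2cf66e_nt: periods are the integrals of smooth compactly supported piecewise rational functions
-/

set_option autoImplicit false

open MeasureTheory

namespace Pool.Agent.W_2cf66e_h3.Kept.SmoothIntegrals

/-- A real number is a period if and only if, for every `k`, it is the integral over some `ℝ^N` of
a compactly supported function of class `C^k` which is piecewise rational over `ℚ`. -/
theorem result (x : ℝ) : Pool.Agent.CVol.IsPeriod x ↔
    ∀ k : ℕ, ∃ (N : ℕ) (g : (Fin N → ℝ) → ℝ), Pool.Agent.CVol.IsPR g ∧ ContDiff ℝ k g ∧
      HasCompactSupport g ∧ ∫ z, g z = x :=
  Pool.Agent.CVol.period_iff_cpt x

end Pool.Agent.W_2cf66e_h3.Kept.SmoothIntegrals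

/-
Claim file of the former hand-in (replaced by OneInequality, Dec 3):
Proves: A real number x is a period (an absolutely convergent integral of P/Q, P and Q polynomials over the rationals, over a finite union of sets {p_1>0,...,p_m>0} with p_i rational polynomials) if and only if for every k there are N and a compactly supported function g on R^N of class C^k, piecewise rational over Q, with integral x.
Definitions: IsPeriod x: the formula of the frozen statement S16425 with x in place of e. IsSA S: S is in the Boolean algebra of subsets of R^N generated by the sets {z : 0<q(z)}, q a polynomial with rational coefficients. IsPR g: g is a finite sum of functions that equal P/Q on S and 0 off S, with S as in IsSA, P and Q rational polynomials, Q without zeros on S.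
Relation: With x=e: Q1 holds if and only if e is, for every k, the integral of a C^k compactly supported piecewise rational function; all singularities of integrand and domain can be removed. Partial answer: a normal form, it does not decide Q1. Known before: reduction to volumes of compact semialgebraic sets (Viu-Sos), by resolution of singularities, with no smoothness of the integrand across the boundary; here an elementary Bernstein-Sato argument.
-/
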